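import Mathlib
import Pool.Agent.Lead.EvDefs
import Pool.Agent.Helper43.EV.All

/-!
Monotone functions whose variables are the points of a product of Grassmann geometries and
flag geometries of type `(a, a+1)` over finite fields and of a set on which an Oliver group acts
transitively.
-/

set_option autoImplicit false

namespace Pool.Agent.Results.MP_d4e2f9_lc.FlagGeometries

open Pool.Agent.Lead.Ev

section

variable (F V : Type) [Field F] [AddCommGroup V] [Module F V]

/-- The pairs `A ≤ B` of linear subspaces of `V` with `dim A = a` and `dim B = b` (for `a = b`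
these are the `a`-dimensional subspaces). -/
def Pairs (a b : ℕ) : Type :=
  {X : Submodule F V × Submodule F V //
    X.1 ≤ X.2 ∧ Module.finrank F X.1 = a ∧ Module.finrank F X.2 = b}

variable {F V}

/-- The smaller subspace `A` of the pair `(A, B)`. -/
def small {a b : ℕ} (X : Pairs F V a b) : Submodule F V := X.1.1

/-- The larger subspace `B` of the pair `(A, B)`. -/
def large {a b : ℕ} (X : Pairs F V a b) : Submodule F V := X.1.2

/-- The linear automorphism `g` maps the pair `X` to the pair `Y`. -/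
def Maps {a b : ℕ} (g : V ≃ₗ[F] V) (X Y : Pairs F V a b) : Prop :=
  small Y = (small X).map g.toLinearMap ∧ large Y = (large X).map g.toLinearMap

variable (F V)

/-- The linear automorphisms of determinant `1`. -/
def SL : Set (V ≃ₗ[F] V) := {g | LinearEquiv.det g = 1}

end

/-- A vector space `V` of finite dimension `m` over a finite field `F` with `q` elements, and
dimensions `a ≤ b ≤ a + 1`, `b ≤ m`. -/
structure Geom where
  /-- the field -/
  F : Type
  /-- the vector space -/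
  V : Type
  [field : Field F]
  [fin : Fintype F]
  [grp : AddCommGroup V]
  [mod : Module F V]
  [fd : FiniteDimensional F V]
  /-- the dimension of the smaller subspace -/
  a : ℕ
  /-- the dimension of the larger subspace -/
  b : ℕ
  hab : a ≤ b
  hba : b ≤ a + 1
  hbm : b ≤ Module.finrank F V

attribute [instance] Geom.field Geom.fin Geom.grp Geom.mod Geom.fd

/-- The set of the pairs of the geometry. -/
def Geom.Pt (Γ : Geom) : Type := Pairs Γ.F Γ.V Γ.a Γ.b

/-- The number `q` of elements of the field. -/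
def Geom.q (Γ : Geom) : ℕ := Fintype.card Γ.F

/-- `b (m - b) + a (b - a)`. -/
noncomputable def Geom.dim (Γ : Geom) : ℕ :=
  Γ.b * (Module.finrank Γ.F Γ.V - Γ.b) + Γ.a * (Γ.b - Γ.a)

/-- The variables: the elements of the product of all sets of pairs and of `Ω`. -/
abbrev Vars {I : Type} (Γ : I → Geom) (Ω : Type) : Type := (∀ i, (Γ i).Pt) × Ω

/-- The input `y` is the translate of the input `x` by an element of `∏ SL(V) × H`. -/
def Translate {I Ω : Type} (Γ : I → Geom) (H : Subgroup (Equiv.Perm Ω))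
    (x y : Vars Γ Ω → Bool) : Prop :=
  ∃ g : ∀ i, SL (Γ i).F (Γ i).V, ∃ σ ∈ H, ∀ (X Y : ∀ i, (Γ i).Pt) (ω : Ω),
    (∀ i, Maps (g i).1 (X i) (Y i)) → y (Y, σ ω) = x (X, ω)

/-- Oliver's class: there are `P ≤ C ≤ H`, `C` normal in `H`, `P` normal in `C`, such that `P` is a
`p`-group, `C/P` is cyclic and `H/C` is an `r`-group. -/
def Oliver (p r : ℕ) {Ω : Type} (H : Subgroup (Equiv.Perm Ω)) : Prop :=
  ∃ C P : Subgroup (Equiv.Perm Ω), C ≤ H ∧ (∀ σ ∈ H, ∀ τ ∈ C, σ * τ * σ⁻¹ ∈ C) ∧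
    (∀ σ ∈ H, ∃ k : ℕ, σ ^ (r ^ k) ∈ C) ∧ P ≤ C ∧ (∀ σ ∈ C, ∀ τ ∈ P, σ * τ * σ⁻¹ ∈ P) ∧
    (∃ σ ∈ C, ∀ τ ∈ C, ∃ k : ℤ, τ * σ ^ k ∈ P) ∧ ∀ σ ∈ P, ∃ k : ℕ, σ ^ (p ^ k) = 1

/-- Let `p` and `r` be primes, `I` a finite set and for every `i` in `I` let `Γ i` be a vector space
`V_i` of finite dimension `m_i` over a finite field `F_i` with `q_i` elements, of characteristic `p`
or `r`, with numbers `a_i ≤ b_i ≤ a_i + 1`, `b_i ≤ m_i`.  Let `H` be a transitive group of
permutations of the finite set `Ω`, in Oliver's class for `p` and `r`.  Let `f` be a non-constant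
monotone Boolean function whose variables are the elements of the product of the sets
`{(A, B) : A ≤ B ≤ V_i, dim A = a_i, dim B = b_i}` and of `Ω`, invariant under
`∏ i, SL(V_i) × H`.  Then every decision tree which computes `f` has depth at least
`|Ω| ∏ i, q_i ^ (b_i (m_i - b_i) + a_i (b_i - a_i))`, and at least
`n ∏ i, (1 - 1/q_i - 1/q_i^2) ^ (b_i - a_i + 1)`, where `n` is the number of variables. -/
theorem result (p r : ℕ) (hp : p.Prime) (hr : r.Prime) {I Ω : Type} [Fintype I] [Fintype Ω]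
    (Γ : I → Geom) (hΓ : ∀ i, CharP (Γ i).F p ∨ CharP (Γ i).F r)
    (H : Subgroup (Equiv.Perm Ω)) (hH : Oliver p r H) (htrans : ∀ i j : Ω, ∃ σ ∈ H, σ i = j)
    (f : (Vars Γ Ω → Bool) → Bool) (hmono : Monotone f) (hnc : ∃ x y, f x ≠ f y)
    (hinv : ∀ x y, Translate Γ H x y → f y = f x)
    (t : DTree (Vars Γ Ω)) (ht : ∀ x, t.eval x = f x) :
    (∏ i, (Γ i).q ^ (Γ i).dim) * Fintype.card Ω ≤ t.depth ∧
      (∏ i, (1 - 1 / ((Γ i).q : ℝ) - 1 / ((Γ i).q : ℝ) ^ 2) ^ ((Γ i).b - (Γ i).a + 1)) *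
        (Nat.card (Vars Γ Ω) : ℝ) ≤ (t.depth : ℝ) := by
  obtain ⟨C, P, hCH, hCn, hHC, hPC, hPn, hcyc, hPp⟩ := hH
  have h1 := Pool.Agent.Helper43.EV.Fin.main Pool.Agent.Helper43.EV.All.bnd
    Pool.Agent.Helper43.EV.All.prd Pool.Agent.Helper43.EV.All.pip
    Pool.Agent.Helper43.EV.All.cls Pool.Agent.Helper43.EV.All.grs p r hp hr
    (fun i => (Γ i).F) (fun i => (Γ i).V) hΓ (fun i => (Γ i).a) (fun i => (Γ i).b)
    (fun i => (Γ i).hab) (fun i => (Γ i).hba) (fun i => (Γ i).hbm) Ω H C P htrans hCH hCn hHC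
    hPC hPn hcyc hPp f hmono hnc
    (fun g hg σ hσ x y hxy => hinv x y ⟨fun i => ⟨g i, hg i⟩, σ, hσ,
      fun X Y ω h => hxy X Y ω h⟩) t ht
  exact ⟨h1, Pool.Agent.Helper43.EV.Fin.count Pool.Agent.Helper43.EV.All.cnt
    (fun i => (Γ i).F) (fun i => (Γ i).V) (fun i => (Γ i).a) (fun i => (Γ i).b)
    (fun i => (Γ i).hab) (fun i => (Γ i).hba) (fun i => (Γ i).hbm) Ω t.depth h1⟩

end Pool.Agent.Results.MP_d4e2f9_lc.FlagGeometries
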