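import Mathlib
import Pool.Agent.Lead.EvDefs
import Pool.Agent.Lead.EvFinal

/-!
Weak evasiveness for functions whose symmetry group has a normal Oliver subgroup with long orbits.
-/

set_option autoImplicit false

namespace Pool.Agent.Results.MP_d4e2f9_lc.NormalOliver

open Pool.Agent.Lead.Ev

/-- Let `f` be a non-constant monotone Boolean function on the finite variable set `V`, invariant
under a group `G` of permutations acting transitively on `V`.  Let `H` be a normal subgroup of `G`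
with subgroups `P ≤ C ≤ H`, `C` normal in `H`, `P` normal in `C`, such that `P` is a `p`-group,
`C/P` is cyclic and `H/C` is a `q`-group.  If all `H`-orbits on `V` have at least `h` elements,
then every decision tree computing `f` has depth `D` with `D^2 ≥ |V| * h`. -/
theorem result {V : Type} [Fintype V] [DecidableEq V]
    (f : (V → Bool) → Bool) (hmono : Monotone f) (hnc : ∃ x y, f x ≠ f y)
    (G H C P : Subgroup (Equiv.Perm V)) (p q : ℕ) (hp : p.Prime) (hq : q.Prime)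
    (hG : ∀ σ ∈ G, ∀ x : V → Bool, f (x ∘ σ) = f x)
    (htrans : ∀ i j : V, ∃ σ ∈ G, σ i = j)
    (hHG : H ≤ G) (hHn : ∀ σ ∈ G, ∀ τ ∈ H, σ * τ * σ⁻¹ ∈ H)
    (hCH : C ≤ H) (hCn : ∀ σ ∈ H, ∀ τ ∈ C, σ * τ * σ⁻¹ ∈ C)
    (hHC : ∀ σ ∈ H, ∃ k : ℕ, σ ^ (q ^ k) ∈ C)
    (hPC : P ≤ C) (hPn : ∀ σ ∈ C, ∀ τ ∈ P, σ * τ * σ⁻¹ ∈ P)
    (hcyc : ∃ σ ∈ C, ∀ τ ∈ C, ∃ k : ℤ, τ * σ ^ k ∈ P)
    (hPp : ∀ σ ∈ P, ∃ k : ℕ, σ ^ (p ^ k) = 1)
    (h : ℕ) (horb : ∀ v : V, h ≤ (MulAction.orbit H v).ncard)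
    (t : DTree V) (ht : ∀ x, t.eval x = f x) :
    Fintype.card V * h ≤ t.depth ^ 2 :=
  quad_bound f hmono hnc G H C P p q hp hq hG htrans hHG hHn hCH hCn hHC hPC hPn hcyc hPp h horb t ht

end Pool.Agent.Results.MP_d4e2f9_lc.NormalOliver
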