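import Mathlib
import Pool.Agent.Lead.EvDefs
import Pool.Agent.Helper82.WE.Final

/-!
A lower bound for monotone properties of structures supported on `k i` points of `Y i`.
-/

set_option autoImplicit false

namespace Pool.Agent.Results.MP_d4e2f9_lc.SupportedStructures

open Pool.Agent.Lead.Ev

theorem result {ι V : Type} [Fintype ι] [Finite V] (Y : ι → Type)
    [∀ i, Fintype (Y i)] (k : ι → ℕ) [MulAction (∀ i, Equiv.Perm (Y i)) V]
    (supp : ∀ i, V → Finset (Y i)) (hk : ∀ i v, (supp i v).card = k i)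
    (hsupp : ∀ (g : ∀ i, Equiv.Perm (Y i)) (i : ι) (v : V),
      supp i (g • v) = (supp i v).map (g i).toEmbedding)
    (f : (V → Bool) → Bool) (hmono : Monotone f) (hnc : ∃ x y, f x ≠ f y)
    (hinv : ∀ (g : ∀ i, Equiv.Perm (Y i)) (x : V → Bool), f (fun v => x (g • v)) = f x)
    (t : DTree V) (ht : ∀ x, t.eval x = f x) :
    (∀ p : ℕ, p.Prime →
      ∏ i, p ^ (Nat.log p (Fintype.card (Y i)) * k i - (k i * (k i + 1) / 2 - 1)) ≤ t.depth) ∧
    (∀ ε : ℝ, 0 < ε →
      (∀ i, (k i : ℝ) + 3 ≤ 2 * ε * Real.logb 2 (Fintype.card (Y i))) →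
      (Nat.card V : ℝ) ≤ ∏ i, (Fintype.card (Y i) : ℝ) ^ (k i) →
      (Nat.card V : ℝ) ^ (1 - ε) ≤ t.depth) :=
  Pool.Agent.Helper82.WE.main Y k supp hk hsupp f hmono hnc hinv t ht

end Pool.Agent.Results.MP_d4e2f9_lc.SupportedStructures
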