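import Pool.Agent.Helper60.WE.Main

/-!
The weak evasiveness conjecture for monotone transitive Boolean functions fails: there are `m ≥ 2` and
`ε > 0` such that for every `k ≥ 1` there is a monotone, non-constant, transitive Boolean function `f` on
`n = m ^ k` variables with `D f ≤ (m - 1) ^ k` and `D f < n ^ (1 - ε)`. For `k = 1` it is a
non-trivial monotone transitive function which is not evasive.

Here `D f` is the deterministic decision tree complexity of `f`: the minimum, over all deterministic
decision trees (`DecisionTree`) which compute `f`, of the maximum number of queries made on any input; and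
`f` is transitive if some group of permutations of the variables acts transitively on the variables and
leaves `f` invariant (`IsTransitive`).
-/

open Pool.Agent.Helper60.WE

namespace Pool.Agent.Results.MP_d4e2f9_lc.WeakEvasivenessFails

theorem result : ∃ (m : ℕ) (ε : ℝ), 2 ≤ m ∧ 0 < ε ∧ ∀ k : ℕ, 1 ≤ k →
    ∃ f : (Fin (m ^ k) → Bool) → Bool, Monotone f ∧ (∃ x y, f x ≠ f y) ∧ IsTransitive f ∧
      D f ≤ (m - 1) ^ k ∧ (D f : ℝ) < ((m ^ k : ℕ) : ℝ) ^ (1 - ε) :=
  main

end Pool.Agent.Results.MP_d4e2f9_lc.WeakEvasivenessFails
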